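import Pool.Agent.Helper59.RG.CaseMinus
import Pool.Agent.Helper21.RG.Nine

/-!
Step 3, case plus: the neighbour of a free side with seven vertices has the same orientation.
(Problem MP_d067c8_co.)
-/

namespace Pool.Agent.Helper59.RG

open Finset Pool.Agent.Helper19.CF Pool.Agent.Helper19.RG Pool.Agent.Helper49.RG

section

variable {N : ℕ} [NeZero N] {f : Equiv.Perm (ZMod N)} {c d p : ZMod N}

/-- The conclusion of the row `w0`. -/
def W0 (f : Equiv.Perm (ZMod N)) (c d : ZMod N) : Prop :=
  ∃ X p q r s, Side f X ∧ Box X c d p q r s ∧ (.inr (f c) : ZMod N ⊕ ZMod N) ∈ X ∧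
    (∀ x, x ≠ c → ((.inl x : ZMod N ⊕ ZMod N) ∈ X ↔ (.inr (f x) : ZMod N ⊕ ZMod N) ∈ X)) ∧
    (.inr (f c - 1) : ZMod N ⊕ ZMod N) ∈ X ∧ (.inr (f c + 1) : ZMod N ⊕ ZMod N) ∈ X ∧
    (∀ v ∈ m7 c d, v ∉ X) ∧
    (.inr (d - 1) : ZMod N ⊕ ZMod N) ∉ X ∧ (.inl (f.symm (d - 1)) : ZMod N ⊕ ZMod N) ∉ X ∧
    p % 2 = 0 ∧ q % 2 = 0 ∧ r % 2 = 0 ∧ s % 2 = 1

/-- The position of a side with seven vertices which contains the outer end of the star. -/
theorem shape (hb : Bad f) (h : M7 f c d) {X : Finset (ZMod N ⊕ ZMod N)} {p q r s : ℕ}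
    (hbox : Box X c d p q r s) (h1 : (.inr (f c) : ZMod N ⊕ ZMod N) ∈ X)
    (ho : ∀ x, x ≠ c → ((.inl x : ZMod N ⊕ ZMod N) ∈ X ↔ (.inr (f x) : ZMod N ⊕ ZMod N) ∈ X))
    (h2 : (.inr (f c - 1) : ZMod N ⊕ ZMod N) ∈ X) (h3 : (.inr (f c + 1) : ZMod N ⊕ ZMod N) ∈ X)
    (h7 : X.card = 7) (hr : r % 2 = 0) :
    r + 1 = (f c - d).val ∧ s = (f c - d).val + 2 ∧ q = p + 2 := by
  have hN := hb.hN
  have hc : (.inl c : ZMod N ⊕ ZMod N) ∉ X := by
    rw [hbox.memA, sub_self, ZMod.val_zero]
    have := hbox.p1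
    omega
  have h4 := card_star' hc h1 ho
  have h5 : X.card = nA X + nB X := by rw [card_eq_nl_nr, nl_eq, nr_eq]
  have h6 := hbox.cardA
  have h8 := hbox.cardB
  have h9 := hbox.pq
  have h10 := hbox.rs
  rw [hbox.memB] at h1 h2 h3
  obtain ⟨-, -, -, -, y0⟩ := M7.step0 hb h
  have hlt := ZMod.val_lt (f c - d)
  have e1 : (f c - 1 - d).val + 1 = (f c - d).val := by
    have g : f c - d = (f c - 1 - d) + ((1 : ℕ) : ZMod N) := by push_cast; ring
    rcases Nat.lt_or_ge ((f c - 1 - d).val + 1) N with g1 | g1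
    · rw [g, val_add_nat _ _ g1]
    · exfalso
      have g2 := ZMod.val_lt (f c - 1 - d)
      have g3 := hbox.sN
      have g4 : ((((f c - 1 - d).val + 1 : ℕ)) : ZMod N) = 0 := by
        rw [show (f c - 1 - d).val + 1 = N by omega, ZMod.natCast_self]
      push_cast at g4
      rw [ZMod.natCast_zmod_val] at g4
      have g5 : f c - d = 0 := by linear_combination g4
      rw [g5, ZMod.val_zero] at y0
      omega
  have e2 : (f c + 1 - d).val = (f c - d).val + 1 := by
    have g : f c + 1 - d = (f c - d) + ((1 : ℕ) : ZMod N) := by push_cast; ring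
    have g1 : (f c - d).val + 1 ≠ N := by
      intro g1
      have g4 : ((((f c - d).val + 1 : ℕ)) : ZMod N) = 0 := by
        rw [g1, ZMod.natCast_self]
      push_cast at g4
      rw [ZMod.natCast_zmod_val] at g4
      exact (M7.y_ne hb h).2 (by linear_combination g4)
    rw [g, val_add_nat _ _ (by omega)]
  omega

/-- **Case plus** of Step 3. -/
theorem case_plus (hb : Bad f)
    (h1 : ∀ X Y : Finset (ZMod N ⊕ ZMod N), Side f X → X.card = 9 → Side f Y → Y.card = 7 →
      ¬ Y ⊆ X)
    (hw0 : ∀ (g : Equiv.Perm (ZMod N)) (c d : ZMod N), Bad g → M7 g c d →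
      (g.symm (g c - 1) - c).val % 2 = 1 → W0 g c d)
    {S : Finset (ZMod N ⊕ ZMod N)} (hS : Min9 f S) (h : Free f S c d)
    (k0 : f p = f c + 1) (k1 : f (p + 1) = f c - 1) (k2 : f (p + 2) = f c + 2) : False := by
  classical
  have hN := hb.hN
  have hodd := hb.hodd
  have hm := h.m
  obtain ⟨-, -, -, -, y0⟩ := M7.step0 hb hm
  obtain ⟨y1, y2⟩ := M7.y_ne hb hm
  have hT2 : f (c + 2) ≠ d - 1 := by
    refine hm.ne_T2 hN ?_
    intro X hX h9 hsub
    exact h1 X (m7 c d) hX h9 (hm.side hN).1 (hm.side hN).2 hsub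
  have n01 := small_ne hN (j := 0) (k := 1) (by omega) (by omega) (by omega)
  have n02 := small_ne hN (j := 0) (k := 2) (by omega) (by omega) (by omega)
  have n03 := small_ne hN (j := 0) (k := 3) (by omega) (by omega) (by omega)
  -- the frame of the neighbour
  let φ : permGraph N f ≃g permGraph N (rot (half f)) :=
    (halfIso (by omega) f).trans (rotIso (by omega) _)
  have hb' : Bad (rot (half f)) := hb.iso φ
  have ap : ∀ x, rot (half f) x = f.symm (-x) := by
    intro x
    rw [rot_apply, half_symm, neg_neg]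
  have aps : ∀ x, (rot (half f)).symm x = - f x := by
    intro x
    rw [rot_symm, half_apply, neg_neg]
  have fl : ∀ x, φ (.inl x) = .inr x := by
    intro x
    show (.inr (- -x) : ZMod N ⊕ ZMod N) = .inr x
    rw [neg_neg]
  have fr : ∀ y, φ (.inr y) = .inl (-y) := fun y => rfl
  have hm' : M7 (rot (half f)) (- f c) p := by
    constructor
    · rw [ap, show -(-f c - 2) = f c + 2 by ring, ← k2, f.symm_apply_apply]
    · rw [ap, show -(-f c - 1) = f c + 1 by ring, ← k0, f.symm_apply_apply]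
    · rw [ap, show -(-f c + 1) = f c - 1 by ring, ← k1, f.symm_apply_apply]
  have hcc : rot (half f) (- f c) = c := by rw [ap, neg_neg, f.symm_apply_apply]
  obtain ⟨X', p', q', r', s', hX, hbox, g1, g2, g3, g4, g5, g6, g7, g8, g9, g10, g11⟩ :=
    hw0 _ _ _ hb' hm' (by
      rw [hcc, aps, hm.b, show -d - -f c = f c - d by ring]
      exact y0)
  rw [hcc] at g1 g3 g4
  have hX0 : Side f (im φ.symm X') := hX.im φ.symm
  have mem : ∀ v, v ∈ im φ.symm X' ↔ φ v ∈ X' := by
    intro v
    rw [mem_im']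
    rfl
  have hcl : (.inl (- f c) : ZMod N ⊕ ZMod N) ∉ X' := by
    apply g5
    rw [mem_m7_l hN]
    tauto
  have hcard : (im φ.symm X').card = X'.card := card_im _ _
  have h7 : X'.card = 7 := by
    obtain ⟨Z, hZ, h7, -⟩ := lemma2 hb h1 hS hX0 h.e (by
      rw [mem, mem, fl, fr]
      intro g
      exact hcl (g.mp g1))
    rcases hZ with rfl | rfl
    · rw [← hcard]; exact h7
    · exfalso
      have e1 : X'ᶜ.card = 7 := by
        rw [card_compl] at h7 ⊢
        rw [← hcard]
        exact h7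
      have e2 : m7 (- f c) p ⊆ X'ᶜ := by
        intro v hv
        exact mem_compl.mpr (g5 v hv)
      have e3 := eq_of_subset_of_card_le e2 (by rw [e1, (hm'.side hN).2])
      have e4 : (.inr (p - 1) : ZMod N ⊕ ZMod N) ∈ m7 (- f c) p := by
        rw [e3]
        exact mem_compl.mpr g6
      rw [mem_m7_r hN] at e4
      have m1 := n01 (p - 1)
      have m2 := n02 (p - 1)
      have m3 := n03 (p - 1)
      push_cast at m1 m2 m3
      rcases e4 with e4 | e4 | e4
      · exact m1 (by linear_combination e4)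
      · exact m2 (by linear_combination e4)
      · exact m3 (by linear_combination e4)
  have sh := shape hb' hm' hbox (by rw [hcc]; exact g1) g2 (by rw [hcc]; exact g3)
    (by rw [hcc]; exact g4) h7 g10
  rw [hcc] at sh
  obtain ⟨sh1, sh2, sh3⟩ := sh
  have r1 := hbox.r1
  have sN := hbox.sN
  have qN := hbox.qN
  have hlt := ZMod.val_lt (c - p)
  -- the columns c - 2 and c + 2
  have v2 : (c + 2 - p).val = (c - p).val + 2 := by
    have := val_add_nat (c - p) 2 (by omega)
    rwa [show c - p + ((2 : ℕ) : ZMod N) = c + 2 - p by push_cast; ring] at this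
  have in2 : (.inr (c + 2) : ZMod N ⊕ ZMod N) ∈ X' := by
    rw [hbox.memB, v2]
    omega
  have vm2 : (c - 2 - p).val + 2 = (c - p).val := by
    have e : c - 2 - p = (((c - p).val - 2 : ℕ) : ZMod N) := by
      rw [Nat.cast_sub (by omega), ZMod.natCast_zmod_val]
      push_cast
      ring
    rw [e, ZMod.val_natCast_of_lt (by omega)]
    omega
  have outm2 : (.inr (c - 2) : ZMod N ⊕ ZMod N) ∉ X' := by
    rw [hbox.memB]
    omega
  -- rows
  have fne : ∀ x, x ≠ c → - f x ≠ - f c := by
    intro x hx g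
    exact hx (f.injective (neg_injective g))
  have col : ∀ x, x ≠ c → ((.inl (- f x) : ZMod N ⊕ ZMod N) ∈ X' ↔
      (.inr x : ZMod N ⊕ ZMod N) ∈ X') := by
    intro x hx
    have := g2 (- f x) (fne x hx)
    rwa [ap, neg_neg, f.symm_apply_apply] at this
  have cm1 : c - 1 ≠ c := by
    have := n01 (c - 1)
    push_cast at this
    intro g
    exact this (by linear_combination g)
  have cm2 : c - 2 ≠ c := by
    have := n02 (c - 2)
    push_cast at this
    intro g
    exact this (by linear_combination g)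
  have w1 := (col (c - 1) cm1).mpr g3
  rw [hm.b] at w1
  have w2 : (.inl (-(d + 2)) : ZMod N ⊕ ZMod N) ∉ X' := by
    intro g
    rw [← hm.a] at g
    exact outm2 ((col (c - 2) cm2).mp g)
  rw [hbox.memA] at w1 w2
  rw [show -d - -f c = f c - d by ring] at w1
  have yv2 : (-(d + 2) - -f c).val + 2 = (f c - d).val := by
    have hy : (f c - d).val ≠ 1 := by
      intro g
      have g1 : f c = d + 1 := by
        have : f c - d = ((1 : ℕ) : ZMod N) := by rw [← g, ZMod.natCast_zmod_val]
        push_cast at this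
        linear_combination this
      rw [← hm.g] at g1
      have g2 := f.injective g1
      have := n01 c
      push_cast at this
      exact this (by linear_combination g2)
    have e : -(d + 2) - -f c = (((f c - d).val - 2 : ℕ) : ZMod N) := by
      rw [Nat.cast_sub (by omega), ZMod.natCast_zmod_val]
      push_cast
      ring
    have hlt' := ZMod.val_lt (f c - d)
    rw [e, ZMod.val_natCast_of_lt (by omega)]
    omega
  -- the row d - 1
  have yv : (-(d - 1) - -f c).val = (f c - d).val + 1 := by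
    have := val_add_nat (f c - d) 1 (by omega)
    rwa [show f c - d + ((1 : ℕ) : ZMod N) = -(d - 1) - -f c by push_cast; ring] at this
  have w3 : (.inl (-(d - 1)) : ZMod N ⊕ ZMod N) ∈ X' := by
    rw [hbox.memA, yv]
    omega
  have hv : f.symm (d - 1) ≠ c := by
    intro g
    apply y2
    rw [← g, f.apply_symm_apply]
  have w4 : (.inr (f.symm (d - 1)) : ZMod N ⊕ ZMod N) ∈ X' := by
    refine (col _ hv).mp ?_
    rw [f.apply_symm_apply]
    exact w3
  rw [hbox.memB] at w4
  have w5 : ∃ j : ℕ, j < 4 ∧ f.symm (d - 1) = c - 1 + j := by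
    refine ⟨(f.symm (d - 1) - p).val + 1 - (c - p).val, by omega, ?_⟩
    rw [Nat.cast_sub (by omega)]
    push_cast
    rw [ZMod.natCast_zmod_val, ZMod.natCast_zmod_val]
    ring
  obtain ⟨j, hj, hj2⟩ := w5
  have hj3 : j = 0 ∨ j = 1 ∨ j = 2 ∨ j = 3 := by omega
  rw [Equiv.symm_apply_eq] at hj2
  rcases hj3 with rfl | rfl | rfl | rfl
  · rw [show c - 1 + ((0 : ℕ) : ZMod N) = c - 1 by push_cast; ring, hm.b] at hj2
    have := n01 (d - 1)
    push_cast at this
    exact this (by linear_combination hj2)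
  · rw [show c - 1 + ((1 : ℕ) : ZMod N) = c by push_cast; ring] at hj2
    exact y2 hj2.symm
  · rw [show c - 1 + ((2 : ℕ) : ZMod N) = c + 1 by push_cast; ring, hm.g] at hj2
    have := n02 (d - 1)
    push_cast at this
    exact this (by linear_combination hj2)
  · rw [show c - 1 + ((3 : ℕ) : ZMod N) = c + 2 by push_cast; ring] at hj2
    exact hT2 hj2.symm

end

end Pool.Agent.Helper59.RG
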