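import Pool.Agent.Helper49.RG.Lemma2
import Pool.Agent.Helper56.M7.Step0

/-!
The word V: a free side with seven vertices whose neighbour has the other orientation.
(Problem MP_d067c8_co.)
-/

namespace Pool.Agent.Helper59.RG

open Finset Pool.Agent.Helper19.CF Pool.Agent.Helper19.RG Pool.Agent.Helper49.RG

section val

variable {N : ℕ} [NeZero N]

theorem val_add_nat (w : ZMod N) (j : ℕ) (h : w.val + j < N) :
    (w + (j : ZMod N)).val = w.val + j := by
  have h1 : w + (j : ZMod N) = ((w.val + j : ℕ) : ZMod N) := by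
    push_cast
    rw [ZMod.natCast_zmod_val]
  rw [h1, ZMod.val_natCast_of_lt h]

omit [NeZero N] in
theorem val_neg_nat {j : ℕ} (h0 : 0 < j) (h : j < N) : (-(j : ZMod N)).val = N - j := by
  have h1 : (-(j : ZMod N)) = ((N - j : ℕ) : ZMod N) := by
    rw [Nat.cast_sub h.le, ZMod.natCast_self, zero_sub]
  rw [h1, ZMod.val_natCast_of_lt (by omega)]

theorem sub_val {u v : ZMod N} (h : u ≠ v) :
    (u.val < v.val ∧ (u - v).val + v.val = N + u.val) ∨
      (v.val < u.val ∧ (u - v).val + v.val = u.val) := by
  have h1 := ZMod.val_lt u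
  have h2 := ZMod.val_lt v
  have h3 : u.val ≠ v.val := fun g => h (ZMod.val_injective N g)
  rcases lt_or_gt_of_ne h3 with h4 | h4
  · left
    refine ⟨h4, ?_⟩
    have h5 : u - v = ((N + u.val - v.val : ℕ) : ZMod N) := by
      rw [Nat.cast_sub (by omega), Nat.cast_add, ZMod.natCast_self, zero_add,
        ZMod.natCast_zmod_val, ZMod.natCast_zmod_val]
    rw [h5, ZMod.val_natCast_of_lt (by omega)]
    omega
  · right
    refine ⟨h4, ?_⟩
    rw [ZMod.val_sub h4.le]
    omega

/-- Many columns in a set. -/
theorem le_nA {W : Finset (ZMod N ⊕ ZMod N)} (c : ZMod N) (s : Finset ℕ)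
    (hs : ∀ j ∈ s, j < N ∧ (.inl (c + (j : ZMod N)) : ZMod N ⊕ ZMod N) ∈ W) : s.card ≤ nA W := by
  unfold nA
  refine card_le_card_of_injOn (fun j => c + (j : ZMod N)) ?_ ?_
  · intro j hj
    simpa using (hs j hj).2
  · intro i hi j hj h
    have h1 : (i : ZMod N) = (j : ZMod N) := add_left_cancel h
    have h2 := congrArg ZMod.val h1
    rwa [ZMod.val_natCast_of_lt (hs i hi).1, ZMod.val_natCast_of_lt (hs j hj).1] at h2

theorem le_nB {W : Finset (ZMod N ⊕ ZMod N)} (c : ZMod N) (s : Finset ℕ)
    (hs : ∀ j ∈ s, j < N ∧ (.inr (c + (j : ZMod N)) : ZMod N ⊕ ZMod N) ∈ W) : s.card ≤ nB W := by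
  unfold nB
  refine card_le_card_of_injOn (fun j => c + (j : ZMod N)) ?_ ?_
  · intro j hj
    simpa using (hs j hj).2
  · intro i hi j hj h
    have h1 : (i : ZMod N) = (j : ZMod N) := add_left_cancel h
    have h2 := congrArg ZMod.val h1
    rwa [ZMod.val_natCast_of_lt (hs i hi).1, ZMod.val_natCast_of_lt (hs j hj).1] at h2

/-- Many columns outside a set. -/
theorem nA_le {W : Finset (ZMod N ⊕ ZMod N)} (c : ZMod N) (s : Finset ℕ)
    (hs : ∀ j ∈ s, j < N ∧ (.inl (c + (j : ZMod N)) : ZMod N ⊕ ZMod N) ∉ W) :
    s.card + nA W ≤ N := by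
  have h1 : s.card ≤ (univ.filter fun x : ZMod N =>
      ¬ (.inl x : ZMod N ⊕ ZMod N) ∈ W).card := by
    refine card_le_card_of_injOn (fun j => c + (j : ZMod N)) ?_ ?_
    · intro j hj
      simpa using (hs j hj).2
    · intro i hi j hj h
      have h1 : (i : ZMod N) = (j : ZMod N) := add_left_cancel h
      have h2 := congrArg ZMod.val h1
      rwa [ZMod.val_natCast_of_lt (hs i hi).1, ZMod.val_natCast_of_lt (hs j hj).1] at h2
  have h2 := card_filter_add_card_filter_not (s := (univ : Finset (ZMod N)))
    (fun x : ZMod N => (.inl x : ZMod N ⊕ ZMod N) ∈ W)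
  rw [card_univ, ZMod.card] at h2
  unfold nA
  omega

end val

section word

variable {N : ℕ} [NeZero N] {f : Equiv.Perm (ZMod N)} {c d p : ZMod N}

/-- The spokes of the word. -/
def vq (c p : ZMod N) (i : ℤ) : ZMod N :=
  if i = 0 then c - 2 else if i = 1 then c - 1 else if i = 2 then c + 1 else
    if i = 3 then c else if i = 4 then p + 2 else p + 3

/-- Colours on the first rim. -/
def vA (N P : ℕ) (u : ℕ) : ℕ := if 0 < u ∧ (u ≤ P + 2 ∨ u + 1 = N) then u + 1 else u

/-- Colours on the second rim. -/
def vB (Y : ℕ) (v : ℕ) : ℕ := if v ≤ Y then v else v + 1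

theorem vq_val (hN : 9 ≤ N) (hP : (p - c).val + 4 < N) (i : ℤ) (h0 : 0 ≤ i) (h5 : i ≤ 5) :
    (i = 0 ∧ (vq c p i - c).val = N - 2) ∨ (i = 1 ∧ (vq c p i - c).val = N - 1) ∨
    (i = 2 ∧ (vq c p i - c).val = 1) ∨ (i = 3 ∧ (vq c p i - c).val = 0) ∨
    (i = 4 ∧ (vq c p i - c).val = (p - c).val + 2) ∨
    (i = 5 ∧ (vq c p i - c).val = (p - c).val + 3) := by
  have hc : i = 0 ∨ i = 1 ∨ i = 2 ∨ i = 3 ∨ i = 4 ∨ i = 5 := by omega
  rcases hc with rfl | rfl | rfl | rfl | rfl | rfl
  · left
    refine ⟨rfl, ?_⟩
    have : vq c p 0 - c = -((2 : ℕ) : ZMod N) := by simp [vq]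
    rw [this, val_neg_nat (by omega) (by omega)]
  · right; left
    refine ⟨rfl, ?_⟩
    have : vq c p 1 - c = -((1 : ℕ) : ZMod N) := by simp [vq]
    rw [this, val_neg_nat (by omega) (by omega)]
  · right; right; left
    refine ⟨rfl, ?_⟩
    have : vq c p 2 - c = ((1 : ℕ) : ZMod N) := by simp [vq]
    rw [this, ZMod.val_natCast_of_lt (by omega)]
  · right; right; right; left
    refine ⟨rfl, ?_⟩
    have : vq c p 3 - c = 0 := by simp [vq]
    rw [this, ZMod.val_zero]
  · right; right; right; right; left
    refine ⟨rfl, ?_⟩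
    have : vq c p 4 - c = (p - c) + ((2 : ℕ) : ZMod N) := by
      simp [vq]; ring
    rw [this, val_add_nat _ _ (by omega)]
  · right; right; right; right; right
    refine ⟨rfl, ?_⟩
    have : vq c p 5 - c = (p - c) + ((3 : ℕ) : ZMod N) := by
      simp [vq]; ring
    rw [this, val_add_nat _ _ (by omega)]

theorem vq_row (hN : 9 ≤ N) (h : M7 f c d) (k2 : f (p + 2) = f c + 1)
    (hY : (f c - d).val + 1 < N) (i : ℤ) (h0 : 0 ≤ i) (h5 : i ≤ 5) :
    (i = 0 ∧ (f (vq c p i) - d).val = 2) ∨ (i = 1 ∧ (f (vq c p i) - d).val = 0) ∨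
    (i = 2 ∧ (f (vq c p i) - d).val = 1) ∨ (i = 3 ∧ (f (vq c p i) - d).val = (f c - d).val) ∨
    (i = 4 ∧ (f (vq c p i) - d).val = (f c - d).val + 1) ∨
    (i = 5 ∧ (f (vq c p i) - d).val = (f (p + 3) - d).val) := by
  have hc : i = 0 ∨ i = 1 ∨ i = 2 ∨ i = 3 ∨ i = 4 ∨ i = 5 := by omega
  rcases hc with rfl | rfl | rfl | rfl | rfl | rfl
  · left
    refine ⟨rfl, ?_⟩
    have : f (vq c p 0) - d = ((2 : ℕ) : ZMod N) := by simp [vq, h.a]
    rw [this, ZMod.val_natCast_of_lt (by omega)]
  · right; left
    refine ⟨rfl, ?_⟩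
    have : f (vq c p 1) - d = 0 := by simp [vq, h.b]
    rw [this, ZMod.val_zero]
  · right; right; left
    refine ⟨rfl, ?_⟩
    have : f (vq c p 2) - d = ((1 : ℕ) : ZMod N) := by simp [vq, h.g]
    rw [this, ZMod.val_natCast_of_lt (by omega)]
  · right; right; right; left
    refine ⟨rfl, ?_⟩
    simp [vq]
  · right; right; right; right; left
    refine ⟨rfl, ?_⟩
    have : f (vq c p 4) - d = (f c - d) + ((1 : ℕ) : ZMod N) := by
      have e : vq c p 4 = p + 2 := by simp [vq]
      rw [e, k2]
      push_cast
      ring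
    rw [this, val_add_nat _ _ (by omega)]
  · right; right; right; right; right
    refine ⟨rfl, ?_⟩
    simp [vq]

theorem vq_qz (hN : 9 ≤ N) (hodd : N % 2 = 1) (h : M7 f c d) (k2 : f (p + 2) = f c + 1)
    (hP0 : (p - c).val % 2 = 1) (hP1 : 3 ≤ (p - c).val) (hP2 : (p - c).val + 5 < N)
    (hY0 : (f c - d).val % 2 = 1) (hY1 : 5 ≤ (f c - d).val) (hY2 : (f c - d).val + 2 ≤ N)
    (hne : p + 3 ≠ c) (hH : (f c - f (p + 3)).val % 2 = 0) :
    QZ f 0 5 (vq c p) (fun x => decide (vA N (p - c).val (x - c).val % 2 = 0))
      (fun y => decide (vB (f c - d).val (y - d).val % 2 = 0)) := by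
  have key := vq_val (c := c) (p := p) hN (by omega)
  have keyr := vq_row (f := f) (c := c) (d := d) (p := p) hN h k2 (by omega)
  have hPc : (((p - c).val : ℕ) : ZMod N) = p - c := ZMod.natCast_zmod_val _
  have hYc : (((f c - d).val : ℕ) : ZMod N) = f c - d := ZMod.natCast_zmod_val _
  have q0 : vq c p 0 = c - 2 := by simp [vq]
  have q1 : vq c p 1 = c - 1 := by simp [vq]
  have q2 : vq c p 2 = c + 1 := by simp [vq]
  have q3 : vq c p 3 = c := by simp [vq]
  have q4 : vq c p 4 = p + 2 := by simp [vq]
  have q5 : vq c p 5 = p + 3 := by simp [vq]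
  refine qz_pos (vA N (p - c).val) (vB (f c - d).val) (by norm_num) ?_ ?_ ?_ ?_ ?_ ?_
  · intro i i' h1 h2 h3 h4 h5
    have g1 := key i h1 h2
    have g2 := key i' h3 h4
    rw [h5] at g1
    omega
  · intro i h1 h2 h3
    have hc : i = 0 ∨ i = 2 ∨ i = 4 := by omega
    rcases hc with rfl | rfl | rfl
    · left
      rw [show (0 : ℤ) + 1 = 1 by norm_num, q0, q1]; ring
    · right
      rw [show (2 : ℤ) + 1 = 3 by norm_num, q2, q3]
    · left
      rw [show (4 : ℤ) + 1 = 5 by norm_num, q4, q5]; ring
  · intro i h1 h2 h3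
    have hc : i = 1 ∨ i = 3 := by omega
    rcases hc with rfl | rfl
    · left
      rw [show (1 : ℤ) + 1 = 2 by norm_num, q1, q2, h.b, h.g]
    · left
      rw [show (3 : ℤ) + 1 = 4 by norm_num, q3, q4, k2]
  · intro i h1 h2
    have g1 := key i h1 h2
    have g2 := keyr i h1 h2
    have g3 : f c - d ≠ f (p + 3) - d := by
      intro g
      have g' : f c = f (p + 3) := by linear_combination g
      exact hne (f.injective g').symm
    have g4 := sub_val g3
    have g5 : (f c - d) - (f (p + 3) - d) = f c - f (p + 3) := by ring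
    rw [g5] at g4
    have g6 := ZMod.val_lt (f (p + 3) - d)
    have g7 := ZMod.val_lt (f c - f (p + 3))
    rcases g1 with ⟨rfl, e⟩ | ⟨rfl, e⟩ | ⟨rfl, e⟩ | ⟨rfl, e⟩ | ⟨rfl, e⟩ | ⟨rfl, e⟩
    · have e' : (f (vq c p 0) - d).val = 2 := by omega
      rw [e, e']
      unfold vA vB
      split_ifs <;> omega
    · have e' : (f (vq c p 1) - d).val = 0 := by omega
      rw [e, e']
      unfold vA vB
      split_ifs <;> omega
    · have e' : (f (vq c p 2) - d).val = 1 := by omega
      rw [e, e']
      unfold vA vB
      split_ifs <;> omega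
    · have e' : (f (vq c p 3) - d).val = (f c - d).val := by omega
      rw [e, e']
      unfold vA vB
      split_ifs <;> omega
    · have e' : (f (vq c p 4) - d).val = (f c - d).val + 1 := by omega
      rw [e, e']
      unfold vA vB
      split_ifs <;> omega
    · have e' : (f (vq c p 5) - d).val = (f (p + 3) - d).val := by omega
      rw [e, e']
      unfold vA vB
      split_ifs <;> omega
  · intro u hu h1
    have hc : u = 0 ∨ u = (p - c).val + 2 ∨ u + 2 = N := by
      by_cases g : u + 1 = N
      · rw [if_pos g] at h1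
        unfold vA at h1
        split_ifs at h1 <;> omega
      · rw [if_neg g] at h1
        unfold vA at h1
        split_ifs at h1 <;> omega
    rcases hc with rfl | rfl | h2
    · refine ⟨2, by norm_num, by norm_num, by norm_num, Or.inr ⟨?_, ?_⟩⟩
      · rw [q2]; push_cast; ring
      · rw [show (2 : ℤ) + 1 = 3 by norm_num, q3]; push_cast; ring
    · refine ⟨4, by norm_num, by norm_num, by norm_num, Or.inl ⟨?_, ?_⟩⟩
      · rw [q4]; push_cast; rw [hPc]; ring
      · rw [show (4 : ℤ) + 1 = 5 by norm_num, q5]; push_cast; rw [hPc]; ring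
    · have h3 : (u : ZMod N) = -2 := by
        have h4 : ((u + 2 : ℕ) : ZMod N) = 0 := by rw [h2, ZMod.natCast_self]
        push_cast at h4
        linear_combination h4
      refine ⟨0, by norm_num, by norm_num, by norm_num, Or.inl ⟨?_, ?_⟩⟩
      · rw [q0, h3]; ring
      · rw [show (0 : ℤ) + 1 = 1 by norm_num, q1, h3]; ring
  · intro u hu h1
    have hc : u = (f c - d).val := by
      by_cases g : u + 1 = N
      · rw [if_pos g] at h1
        unfold vB at h1
        split_ifs at h1 <;> omega
      · rw [if_neg g] at h1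
        unfold vB at h1
        split_ifs at h1 <;> omega
    subst hc
    refine ⟨3, by norm_num, by norm_num, by norm_num, Or.inl ⟨?_, ?_⟩⟩
    · rw [q3, hYc]; ring
    · rw [show (3 : ℤ) + 1 = 4 by norm_num, q4, hYc, k2]; ring

/-- The word V is not killed. -/
theorem v_kill (hb : Bad f) (h : M7 f c d) (k0 : f p = f c + 2) (k1 : f (p + 1) = f c - 1)
    (k2 : f (p + 2) = f c + 1)
    (hP0 : (p - c).val % 2 = 1) (hP1 : 3 ≤ (p - c).val) (hP2 : (p - c).val + 5 < N)
    (hY0 : (f c - d).val % 2 = 1) (hY1 : 5 ≤ (f c - d).val) (hY2 : (f c - d).val + 2 ≤ N)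
    (hH : (f c - f (p + 3)).val % 2 = 0)
    (h7 : ∀ Y : Finset (ZMod N ⊕ ZMod N), Side f Y → ∀ x, (x = c ∨ x = c + 1) →
      ¬ ((.inl x : ZMod N ⊕ ZMod N) ∈ Y ↔ (.inr (f x) : ZMod N ⊕ ZMod N) ∈ Y) →
      Y.card = 7 ∨ Yᶜ.card = 7) : False := by
  classical
  have hN := hb.hN
  have hodd := hb.hodd
  have hne : p + 3 ≠ c := by
    intro g
    have g1 : (p - c) + ((3 : ℕ) : ZMod N) = 0 := by
      push_cast
      linear_combination g
    have g2 := val_add_nat (p - c) 3 (by omega)
    rw [g1, ZMod.val_zero] at g2
    omega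
  have hq := vq_qz hN hodd h k2 hP0 hP1 hP2 hY0 hY1 hY2 hne hH
  obtain ⟨W, k, hW, hk0, hk5⟩ := hb.kill hq
  have q0 : vq c p 0 = c - 2 := by simp [vq]
  have q1 : vq c p 1 = c - 1 := by simp [vq]
  have q2 : vq c p 2 = c + 1 := by simp [vq]
  have q3 : vq c p 3 = c := by simp [vq]
  have q4 : vq c p 4 = p + 2 := by simp [vq]
  have q5 : vq c p 5 = p + 3 := by simp [vq]
  have s0 := hW.stepA (i := 0) le_rfl (by norm_num) (by norm_num)
  have s1 := hW.stepB (i := 1) (by norm_num) (by norm_num) (by norm_num)
  have s2 := hW.stepA (i := 2) (by norm_num) (by norm_num) (by norm_num)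
  have s3 := hW.stepB (i := 3) (by norm_num) (by norm_num) (by norm_num)
  have s4 := hW.stepA (i := 4) (by norm_num) (by norm_num) (by norm_num)
  rw [show (0 : ℤ) + 1 = 1 by norm_num, q0, q1] at s0
  rw [show (1 : ℤ) + 1 = 2 by norm_num, q1, q2, h.b, h.g] at s1
  rw [show (2 : ℤ) + 1 = 3 by norm_num, q2, q3] at s2
  rw [show (3 : ℤ) + 1 = 4 by norm_num, q3, q4, k2] at s3
  rw [show (4 : ℤ) + 1 = 5 by norm_num, q4, q5] at s4
  have hsum : W.card = nA W + nB W := by rw [card_eq_nl_nr, nl_eq, nr_eq]
  have hcard : W.card + Wᶜ.card = 2 * N := by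
    rw [card_add_card_compl, Fintype.card_sum, ZMod.card]
    ring
  have hc : k = 1 ∨ k = 2 ∨ k = 3 ∨ k = 4 := by omega
  rcases hc with rfl | rfl | rfl | rfl
  · -- the spoke b
    have n := (hW.nbr hb).2 (by norm_num)
    rw [q1] at n
    have n1 := n.1
    rw [show c - 1 + 1 = c by ring] at n1
    have := s2.2.mp n1
    omega
  · -- the spoke g
    have n := (hW.nbr hb).1 (by norm_num)
    have ct := hW.cut.1 (by norm_num)
    have hv := hW.heavy.1 (by norm_num)
    rw [q2, h.g] at n ct
    have m0 : (.inl (c - 1) : ZMod N ⊕ ZMod N) ∈ W := s0.2.mpr (by norm_num)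
    have m1 : (.inl c : ZMod N ⊕ ZMod N) ∉ W := fun g => by have := s2.2.mp g; omega
    have m2 : (.inl (p + 2) : ZMod N ⊕ ZMod N) ∉ W := fun g => by have := s4.1.mp g; omega
    have m3 : (.inl (p + 3) : ZMod N ⊕ ZMod N) ∉ W := fun g => by have := s4.2.mp g; omega
    have r0 : (.inr d : ZMod N ⊕ ZMod N) ∈ W := s1.1.mpr (by norm_num)
    have r2 : (.inr (d + 2) : ZMod N ⊕ ZMod N) ∈ W := by
      have := n.2.2.1
      rwa [show d + 1 + 1 = d + 2 by ring] at this
    have c0 := hW.bd (.inl (c - 1)) m0 (.inl c) m1 (by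
      have := adjA hb (c - 1)
      rwa [show c - 1 + 1 = c by ring] at this)
    have colA : qC (fun x => decide (vA N (p - c).val (x - c).val % 2 = 0))
        (fun y => decide (vB (f c - d).val (y - d).val % 2 = 0)) (.inl (c - 1)) = false := by
      show decide _ = false
      rw [decide_eq_false_iff_not]
      have e : c - 1 - c = -((1 : ℕ) : ZMod N) := by push_cast; ring
      rw [e, val_neg_nat (by omega) (by omega)]
      unfold vA
      split_ifs <;> omega
    have r3 : (.inr (d + 2 + 1) : ZMod N ⊕ ZMod N) ∈ W := by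
      by_contra g
      have c1 := hW.bd (.inr (d + 2)) r2 (.inr (d + 2 + 1)) g (adjB hb _)
      have c2 : qC (fun x => decide (vA N (p - c).val (x - c).val % 2 = 0))
          (fun y => decide (vB (f c - d).val (y - d).val % 2 = 0)) (.inr (d + 2)) = true := by
        show decide _ = true
        rw [decide_eq_true_iff]
        have e : d + 2 - d = ((2 : ℕ) : ZMod N) := by push_cast; ring
        rw [e, ZMod.val_natCast_of_lt (by omega)]
        unfold vB
        split_ifs <;> omega
      rw [c2] at c1
      rw [colA] at c0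
      rw [← c1] at c0
      exact absurd c0 (by simp)
    have rm : (.inr (d - 1) : ZMod N ⊕ ZMod N) ∈ W := by
      by_contra g
      have c1 := hW.bd (.inr d) r0 (.inr (d - 1)) g (adjB' hb _)
      have c2 : qC (fun x => decide (vA N (p - c).val (x - c).val % 2 = 0))
          (fun y => decide (vB (f c - d).val (y - d).val % 2 = 0)) (.inr d) = true := by
        show decide _ = true
        rw [decide_eq_true_iff, sub_self, ZMod.val_zero]
        unfold vB
        split_ifs <;> omega
      rw [c2] at c1
      rw [colA] at c0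
      rw [← c1] at c0
      exact absurd c0 (by simp)
    have b1 : 5 ≤ nB W := by
      have := le_nB (W := W) (d - 1) (range 5) (by
        intro j hj
        have hj' := mem_range.mp hj
        refine ⟨by omega, ?_⟩
        have hc : j = 0 ∨ j = 1 ∨ j = 2 ∨ j = 3 ∨ j = 4 := by omega
        rcases hc with rfl | rfl | rfl | rfl | rfl
        · have e : d - 1 + ((0 : ℕ) : ZMod N) = d - 1 := by push_cast; ring
          rw [e]; exact rm
        · have e : d - 1 + ((1 : ℕ) : ZMod N) = d := by push_cast; ring
          rw [e]; exact r0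
        · have e : d - 1 + ((2 : ℕ) : ZMod N) = d + 1 := by push_cast; ring
          rw [e]; exact ct.1
        · have e : d - 1 + ((3 : ℕ) : ZMod N) = d + 2 := by push_cast; ring
          rw [e]; exact r2
        · have e : d - 1 + ((4 : ℕ) : ZMod N) = d + 2 + 1 := by push_cast; ring
          rw [e]; exact r3)
      rwa [card_range] at this
    have b2 : 5 + nA W ≤ N := by
      have := nA_le (W := W) c ({0, 1, 2, (p - c).val + 2, (p - c).val + 3} : Finset ℕ) (by
        intro j hj
        simp only [mem_insert, mem_singleton] at hj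
        have hPc : (((p - c).val : ℕ) : ZMod N) = p - c := ZMod.natCast_zmod_val _
        rcases hj with rfl | rfl | rfl | rfl | rfl
        · refine ⟨by omega, ?_⟩
          have e : c + ((0 : ℕ) : ZMod N) = c := by push_cast; ring
          rw [e]; exact m1
        · refine ⟨by omega, ?_⟩
          have e : c + ((1 : ℕ) : ZMod N) = c + 1 := by push_cast; ring
          rw [e]; exact ct.2
        · refine ⟨by omega, ?_⟩
          have e : c + ((2 : ℕ) : ZMod N) = c + 1 + 1 := by push_cast; ring
          rw [e]; exact n.1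
        · refine ⟨by omega, ?_⟩
          have e : c + (((p - c).val + 2 : ℕ) : ZMod N) = p + 2 := by
            push_cast; rw [hPc]; ring
          rw [e]; exact m2
        · refine ⟨by omega, ?_⟩
          have e : c + (((p - c).val + 3 : ℕ) : ZMod N) = p + 3 := by
            push_cast; rw [hPc]; ring
          rw [e]; exact m3)
      have hcd : ({0, 1, 2, (p - c).val + 2, (p - c).val + 3} : Finset ℕ).card = 5 := by
        rw [card_insert_of_notMem, card_insert_of_notMem, card_insert_of_notMem,
          card_insert_of_notMem, card_singleton]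
        all_goals simp only [mem_insert, mem_singleton]; omega
      omega
    rcases h7 W hW.side (c + 1) (Or.inr rfl) (by
      rw [h.g]
      intro g
      exact ct.2 (g.mpr ct.1)) with g | g
    · omega
    · omega
  · -- the spoke e
    have n := (hW.nbr hb).2 (by norm_num)
    have ct := hW.cut.2 (by norm_num)
    have hv := hW.heavy.2 (by norm_num)
    rw [q3] at n ct
    have m0 : (.inl (c - 2) : ZMod N ⊕ ZMod N) ∈ W := s0.1.mpr (by norm_num)
    have m1 : (.inl (c - 1) : ZMod N ⊕ ZMod N) ∈ W := s0.2.mpr (by norm_num)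
    have m2 : (.inl (p + 2) : ZMod N ⊕ ZMod N) ∉ W := fun g => by have := s4.1.mp g; omega
    have m3 : (.inl (p + 3) : ZMod N ⊕ ZMod N) ∉ W := fun g => by have := s4.2.mp g; omega
    have hpc : p + 1 ≠ c := by
      intro g
      have g1 : (p - c) + ((1 : ℕ) : ZMod N) = 0 := by
        push_cast
        linear_combination g
      have g2 := val_add_nat (p - c) 1 (by omega)
      rw [g1, ZMod.val_zero] at g2
      omega
    have m4 : (.inl (p + 1) : ZMod N ⊕ ZMod N) ∉ W := by
      intro g
      have := (hW.other (p + 1) (by rw [q3]; exact hpc)).mp g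
      rw [k1] at this
      exact n.2.2.2 this
    rcases h7 W hW.side c (Or.inl rfl) (fun g => ct.2 (g.mp ct.1)) with g7 | g7
    · have e1 : (.inl (c + 1 + 1) : ZMod N ⊕ ZMod N) ∉ W := by
        intro g
        have := le_nA (W := W) (c - 2) (range 5) (by
          intro j hj
          have hj' := mem_range.mp hj
          refine ⟨by omega, ?_⟩
          have hc : j = 0 ∨ j = 1 ∨ j = 2 ∨ j = 3 ∨ j = 4 := by omega
          rcases hc with rfl | rfl | rfl | rfl | rfl
          · have e : c - 2 + ((0 : ℕ) : ZMod N) = c - 2 := by push_cast; ring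
            rw [e]; exact m0
          · have e : c - 2 + ((1 : ℕ) : ZMod N) = c - 1 := by push_cast; ring
            rw [e]; exact m1
          · have e : c - 2 + ((2 : ℕ) : ZMod N) = c := by push_cast; ring
            rw [e]; exact ct.1
          · have e : c - 2 + ((3 : ℕ) : ZMod N) = c + 1 := by push_cast; ring
            rw [e]; exact n.1
          · have e : c - 2 + ((4 : ℕ) : ZMod N) = c + 1 + 1 := by push_cast; ring
            rw [e]; exact g)
        rw [card_range] at this
        omega
      have e2 : (.inl (c - 2 - 1) : ZMod N ⊕ ZMod N) ∉ W := by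
        intro g
        have := le_nA (W := W) (c - 2 - 1) (range 5) (by
          intro j hj
          have hj' := mem_range.mp hj
          refine ⟨by omega, ?_⟩
          have hc : j = 0 ∨ j = 1 ∨ j = 2 ∨ j = 3 ∨ j = 4 := by omega
          rcases hc with rfl | rfl | rfl | rfl | rfl
          · have e : c - 2 - 1 + ((0 : ℕ) : ZMod N) = c - 2 - 1 := by push_cast; ring
            rw [e]; exact g
          · have e : c - 2 - 1 + ((1 : ℕ) : ZMod N) = c - 2 := by push_cast; ring
            rw [e]; exact m0
          · have e : c - 2 - 1 + ((2 : ℕ) : ZMod N) = c - 1 := by push_cast; ring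
            rw [e]; exact m1
          · have e : c - 2 - 1 + ((3 : ℕ) : ZMod N) = c := by push_cast; ring
            rw [e]; exact ct.1
          · have e : c - 2 - 1 + ((4 : ℕ) : ZMod N) = c + 1 := by push_cast; ring
            rw [e]; exact n.1)
        rw [card_range] at this
        omega
      have c1 := hW.bd _ n.1 _ e1 (adjA hb _)
      have c2 := hW.bd _ m0 _ e2 (adjA' hb _)
      have d1 : qC (fun x => decide (vA N (p - c).val (x - c).val % 2 = 0))
          (fun y => decide (vB (f c - d).val (y - d).val % 2 = 0)) (.inl (c + 1)) = true := by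
        show decide _ = true
        rw [decide_eq_true_iff]
        have e : c + 1 - c = ((1 : ℕ) : ZMod N) := by push_cast; ring
        rw [e, ZMod.val_natCast_of_lt (by omega)]
        unfold vA
        split_ifs <;> omega
      have d2 : qC (fun x => decide (vA N (p - c).val (x - c).val % 2 = 0))
          (fun y => decide (vB (f c - d).val (y - d).val % 2 = 0)) (.inl (c - 2)) = false := by
        show decide _ = false
        rw [decide_eq_false_iff_not]
        have e : c - 2 - c = -((2 : ℕ) : ZMod N) := by push_cast; ring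
        rw [e, val_neg_nat (by omega) (by omega)]
        unfold vA
        split_ifs <;> omega
      rw [d1] at c1
      rw [d2, ← c1] at c2
      exact absurd c2 (by simp)
    · have e1 : (.inl p : ZMod N ⊕ ZMod N) ∈ W := by
        by_contra g
        have := nA_le (W := W) p (range 4) (by
          intro j hj
          have hj' := mem_range.mp hj
          refine ⟨by omega, ?_⟩
          have hc : j = 0 ∨ j = 1 ∨ j = 2 ∨ j = 3 := by omega
          rcases hc with rfl | rfl | rfl | rfl
          · have e : p + ((0 : ℕ) : ZMod N) = p := by push_cast; ring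
            rw [e]; exact g
          · have e : p + ((1 : ℕ) : ZMod N) = p + 1 := by push_cast; ring
            rw [e]; exact m4
          · have e : p + ((2 : ℕ) : ZMod N) = p + 2 := by push_cast; ring
            rw [e]; exact m2
          · have e : p + ((3 : ℕ) : ZMod N) = p + 3 := by push_cast; ring
            rw [e]; exact m3)
        rw [card_range] at this
        omega
      have e2 : (.inl (p + 3 + 1) : ZMod N ⊕ ZMod N) ∈ W := by
        by_contra g
        have := nA_le (W := W) (p + 1) (range 4) (by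
          intro j hj
          have hj' := mem_range.mp hj
          refine ⟨by omega, ?_⟩
          have hc : j = 0 ∨ j = 1 ∨ j = 2 ∨ j = 3 := by omega
          rcases hc with rfl | rfl | rfl | rfl
          · have e : p + 1 + ((0 : ℕ) : ZMod N) = p + 1 := by push_cast; ring
            rw [e]; exact m4
          · have e : p + 1 + ((1 : ℕ) : ZMod N) = p + 2 := by push_cast; ring
            rw [e]; exact m2
          · have e : p + 1 + ((2 : ℕ) : ZMod N) = p + 3 := by push_cast; ring
            rw [e]; exact m3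
          · have e : p + 1 + ((3 : ℕ) : ZMod N) = p + 3 + 1 := by push_cast; ring
            rw [e]; exact g)
        rw [card_range] at this
        omega
      have c1 := hW.bd' hb hq _ e1 _ m4 (adjA hb _)
      have c2 := hW.bd' hb hq _ e2 _ m3 (adjA hb _).symm
      have d1 : qC (fun x => decide (vA N (p - c).val (x - c).val % 2 = 0))
          (fun y => decide (vB (f c - d).val (y - d).val % 2 = 0)) (.inl (p + 1)) = false := by
        show decide _ = false
        rw [decide_eq_false_iff_not]
        have e : p + 1 - c = (p - c) + ((1 : ℕ) : ZMod N) := by push_cast; ring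
        rw [e, val_add_nat _ _ (by omega)]
        unfold vA
        split_ifs <;> omega
      have d2 : qC (fun x => decide (vA N (p - c).val (x - c).val % 2 = 0))
          (fun y => decide (vB (f c - d).val (y - d).val % 2 = 0)) (.inl (p + 3)) = true := by
        show decide _ = true
        rw [decide_eq_true_iff]
        have e : p + 3 - c = (p - c) + ((3 : ℕ) : ZMod N) := by push_cast; ring
        rw [e, val_add_nat _ _ (by omega)]
        unfold vA
        split_ifs <;> omega
      rw [d1] at c1
      rw [d2] at c2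
      cases hK : qC (fun x => decide (vA N (p - c).val (x - c).val % 2 = 0))
        (fun y => decide (vB (f c - d).val (y - d).val % 2 = 0)) (endB f (vq c p) 5)
      · exact c1 hK.symm
      · exact c2 hK.symm
  · -- the spoke b of the neighbour
    have n := (hW.nbr hb).1 (by norm_num)
    have ct := hW.cut.1 (by norm_num)
    rw [q4, k2] at n ct
    have r0 : (.inr (f c) : ZMod N ⊕ ZMod N) ∈ W := s3.1.mpr (by norm_num)
    have hp2 : p ≠ p + 2 := by
      intro g
      have g1 : ((2 : ℕ) : ZMod N) = 0 := by
        push_cast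
        linear_combination -g
      have g2 := congrArg ZMod.val g1
      rw [ZMod.val_natCast_of_lt (by omega), ZMod.val_zero] at g2
      omega
    have hp1 : p + 1 ≠ p + 2 := by
      intro g
      have g1 : ((1 : ℕ) : ZMod N) = 0 := by
        push_cast
        linear_combination -g
      have g2 := congrArg ZMod.val g1
      rw [ZMod.val_natCast_of_lt (by omega), ZMod.val_zero] at g2
      omega
    have m0 : (.inl p : ZMod N ⊕ ZMod N) ∈ W := by
      refine (hW.other p (by rw [q4]; exact hp2)).mpr ?_
      rw [k0]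
      have := n.2.2.1
      rwa [show f c + 1 + 1 = f c + 2 by ring] at this
    have m1 : (.inl (p + 1) : ZMod N ⊕ ZMod N) ∉ W := by
      have := n.2.1
      rwa [show p + 2 - 1 = p + 1 by ring] at this
    have r1 : (.inr (f c - 1) : ZMod N ⊕ ZMod N) ∉ W := by
      intro g
      apply m1
      refine (hW.other (p + 1) (by rw [q4]; exact hp1)).mpr ?_
      rw [k1]
      exact g
    have c1 := hW.bd _ m0 _ m1 (adjA hb _)
    have c2 := hW.bd _ r0 _ r1 (adjB' hb _)
    have d1 : qC (fun x => decide (vA N (p - c).val (x - c).val % 2 = 0))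
        (fun y => decide (vB (f c - d).val (y - d).val % 2 = 0)) (.inl p) = true := by
      show decide _ = true
      rw [decide_eq_true_iff]
      unfold vA
      split_ifs <;> omega
    have d2 : qC (fun x => decide (vA N (p - c).val (x - c).val % 2 = 0))
        (fun y => decide (vB (f c - d).val (y - d).val % 2 = 0)) (.inr (f c)) = false := by
      show decide _ = false
      rw [decide_eq_false_iff_not]
      unfold vB
      split_ifs <;> omega
    rw [d1] at c1
    rw [d2, ← c1] at c2
    exact absurd c2 (by simp)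

/-- The orientation of the neighbour. -/
theorem neighbour (hb : Bad f) (k0 : f p = f c + 2) (k1 : f (p + 1) = f c - 1)
    (k2 : f (p + 2) = f c + 1) :
    (p + 2 - c).val % 2 = 1 ∧ (f c - f (p + 3)).val % 2 = 0 ∧ p ≠ c + 1 ∧ p + 3 ≠ c := by
  have hN := hb.hN
  have hb' : Bad (half (mir (rot f))) :=
    ((hb.iso (rotIso (by omega) f)).iso (mirIso (by omega) _)).iso (halfIso (by omega) _)
  have ap : ∀ x, half (mir (rot f)) x = - f.symm (-x) := by
    intro x
    rw [half_apply, mir_apply, rot_apply]
    ring
  have aps : ∀ x, (half (mir (rot f))).symm x = - f (-x) := by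
    intro x
    rw [Equiv.symm_apply_eq, ap, neg_neg, f.symm_apply_apply, neg_neg]
  have hm : M7 (half (mir (rot f))) (- f c) (- (p + 2)) := by
    constructor
    · rw [ap, show -(-f c - 2) = f c + 2 by ring, ← k0, f.symm_apply_apply]
      ring
    · rw [ap, show -(-f c - 1) = f c + 1 by ring, ← k2, f.symm_apply_apply]
    · rw [ap, show -(-f c + 1) = f c - 1 by ring, ← k1, f.symm_apply_apply]
      ring
  obtain ⟨-, h2, -, -, h5⟩ := M7.step0 hb' hm
  obtain ⟨h6, h7⟩ := M7.y_ne hb' hm
  rw [ap, neg_neg, f.symm_apply_apply] at h5 h6 h7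
  rw [aps] at h2
  refine ⟨?_, ?_, ?_, ?_⟩
  · rwa [show -c - -(p + 2) = p + 2 - c by ring] at h5
  · rwa [show -(-(p + 2) - 1) = p + 3 by ring, show - f (p + 3) - - f c = f c - f (p + 3) by ring]
      at h2
  · intro g
    apply h6
    rw [g]
    ring
  · intro g
    apply h7
    rw [← g]
    ring

/-- **Case minus** of Step 3. -/
theorem case_minus (hb : Bad f)
    (h1 : ∀ X Y : Finset (ZMod N ⊕ ZMod N), Side f X → X.card = 9 → Side f Y → Y.card = 7 →
      ¬ Y ⊆ X)
    {S : Finset (ZMod N ⊕ ZMod N)} (hS : Min9 f S) (h : Free f S c d)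
    (k0 : f p = f c + 2) (k1 : f (p + 1) = f c - 1) (k2 : f (p + 2) = f c + 1) : False := by
  have hN := hb.hN
  have hodd := hb.hodd
  have hm := h.m
  obtain ⟨n1, n2, n3, n4⟩ := neighbour hb k0 k1 k2
  obtain ⟨-, -, -, -, y0⟩ := M7.step0 hb hm
  obtain ⟨y1, y2⟩ := M7.y_ne hb hm
  have natne : ∀ j : ℕ, 0 < j → j < N → ((j : ℕ) : ZMod N) ≠ 0 := by
    intro j hj hjN g
    have g2 := congrArg ZMod.val g
    rw [ZMod.val_natCast_of_lt hjN, ZMod.val_zero] at g2
    omega
  -- the row of the star
  have hY : ∀ j : ℕ, j < N → ((f c - d).val = j → f c = d + j) := by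
    intro j hj g
    rw [← g, ZMod.natCast_zmod_val]
    ring
  have yy : 5 ≤ (f c - d).val ∧ (f c - d).val + 2 ≤ N := by
    have e1 : (f c - d).val ≠ 1 := by
      intro g
      have g1 := hY 1 (by omega) g
      rw [show d + ((1 : ℕ) : ZMod N) = d + 1 by push_cast; ring, ← hm.g] at g1
      have g2 := f.injective g1
      exact natne 1 (by omega) (by omega) (by push_cast; linear_combination -g2)
    have e3 : (f c - d).val ≠ 3 := by
      intro g
      exact y1 (by have := hY 3 (by omega) g; push_cast at this; exact this)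
    have hlt := ZMod.val_lt (f c - d)
    omega
  have hP : ∀ j : ℕ, j < N → ((p - c).val = j → p = c + j) := by
    intro j hj g
    rw [← g, ZMod.natCast_zmod_val]
    ring
  have hPm : ∀ j : ℕ, 0 < j → j ≤ N → (p - c).val + j = N → p + j = c := by
    intro j hj hjN g
    have g1 : (((p - c).val + j : ℕ) : ZMod N) = 0 := by rw [g, ZMod.natCast_self]
    push_cast at g1
    rw [ZMod.natCast_zmod_val] at g1
    linear_combination g1
  have pp : (p - c).val % 2 = 1 ∧ 3 ≤ (p - c).val ∧ (p - c).val + 5 < N := by
    have hlt := ZMod.val_lt (p - c)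
    have e0 : (p - c).val ≠ 0 := by
      intro g
      have g1 := hP 0 (by omega) g
      rw [show c + ((0 : ℕ) : ZMod N) = c by push_cast; ring] at g1
      rw [g1] at k0
      exact natne 2 (by omega) (by omega) (by push_cast; linear_combination -k0)
    have e1 : (p - c).val ≠ 1 := by
      intro g
      exact n3 (by have := hP 1 (by omega) g; push_cast at this; exact this)
    have m1 : (p - c).val + 1 ≠ N := by
      intro g
      have g1 := hPm 1 (by omega) (by omega) g
      rw [show p + ((1 : ℕ) : ZMod N) = p + 1 by push_cast; ring] at g1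
      rw [g1] at k1
      exact natne 1 (by omega) (by omega) (by push_cast; linear_combination k1)
    have m2 : (p - c).val + 2 ≠ N := by
      intro g
      have g1 := hPm 2 (by omega) (by omega) g
      rw [show p + ((2 : ℕ) : ZMod N) = p + 2 by push_cast; ring] at g1
      rw [g1] at k2
      exact natne 1 (by omega) (by omega) (by push_cast; linear_combination -k2)
    have m4 : (p - c).val + 4 ≠ N := by
      intro g
      have g1 := hPm 4 (by omega) (by omega) g
      have g2 : p + 2 = c - 2 := by
        push_cast at g1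
        linear_combination g1
      rw [g2, hm.a] at k2
      have g3 : f c = f (c + 1) := by
        rw [hm.g]
        linear_combination -k2
      have g4 := f.injective g3
      exact natne 1 (by omega) (by omega) (by push_cast; linear_combination -g4)
    have e2 : (p + 2 - c).val = (p - c).val + 2 := by
      have := val_add_nat (p - c) 2 (by omega)
      rwa [show p - c + ((2 : ℕ) : ZMod N) = p + 2 - c by push_cast; ring] at this
    omega
  refine v_kill hb hm k0 k1 k2 pp.1 pp.2.1 pp.2.2 y0 yy.1 yy.2 n2 ?_
  intro Y hY x hx hxY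
  have hin : Inner f S x := by
    rcases hx with rfl | rfl
    · exact h.e
    · exact h.g
  obtain ⟨Z, hZ, h7, -⟩ := lemma2 hb h1 hS hY hin hxY
  rcases hZ with rfl | rfl
  · exact Or.inl h7
  · exact Or.inr h7

end word

end Pool.Agent.Helper59.RG
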